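import Mathlib
import Pool.Agent.TH288.BF.Round
import Pool.Agent.Results.MP_e8ee11_co.BeckFialaLogN
import Pool.Agent.Results.MP_e8ee11_co.BeckFialaIterFree

/-!
# The Beck-Fiala bound for almost all sets

Distributions on colourings (not only on fractional colourings) for which every set is within
`2 t + O(√t)` surely and within `O(√t)` with probability close to `1`; the bounds do not depend on
the number of elements or the number of sets.
-/

namespace Pool.Agent.Results.MP_e8ee11_co.AlmostAllSets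

open Finset Pool.Agent.TH288.BF

/-- the bound `O(√t + (1 + log t)^(3/2) √(log (1/ε)))` -/
noncomputable def bound (t ε : ℝ) : ℝ :=
  min (7400 * Real.sqrt t + 1800 * Real.log (1 / ε))
    (3120 * Real.sqrt t + 940000 * Real.sqrt (Real.log (1 / ε)) * (1 + Real.log t) ^ (3 / 2 : ℝ))

/-- `w` are probabilities and `χ k` are colourings -/
def IsDist {K n : ℕ} (w : Fin K → ℝ) (χ : Fin K → Fin n → ℝ) : Prop :=
  (∀ k, 0 ≤ w k) ∧ ∑ k, w k = 1 ∧ ∀ k j, χ k j = 1 ∨ χ k j = -1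

theorem dist1 (m n t : ℕ) (S : Fin m → Finset (Fin n)) (ht : 1 ≤ t)
    (hdeg : ∀ j, (univ.filter (fun i => j ∈ S i)).card ≤ t) (ε : ℝ) (h0 : 0 < ε)
    (h1 : ε ≤ 1 / 2) :
    ∃ (K : ℕ) (w : Fin K → ℝ) (χ : Fin K → Fin n → ℝ), IsDist w χ ∧
      (∀ k i, |∑ j ∈ S i, χ k j| ≤ 2 * t + bound t ε) ∧
      ∀ i, ∑ k ∈ univ.filter (fun k => bound t ε < |∑ j ∈ S i, χ k j|), w k ≤
        ε * (S i).card := by
  classical
  have htR : (1 : ℝ) ≤ t := by exact_mod_cast ht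
  obtain ⟨K, w, y, hw, hw1, hy, hB, hε⟩ := BeckFialaLogN.result m n
    (fun i j => if j ∈ S i then 1 else 0) t htR
    (by intro i j; split_ifs <;> simp)
    (by
      intro j
      have e : ∑ i, |if j ∈ S i then (1 : ℝ) else 0| =
          ((univ.filter (fun i => j ∈ S i)).card : ℝ) := by
        rw [Finset.card_filter]
        push_cast
        refine sum_congr rfl fun i _ => ?_
        split_ifs <;> simp
      rw [e]
      exact_mod_cast hdeg j) ε h0 h1
  have hB' : ∀ k i, |∑ j ∈ S i, y k j| ≤ bound t ε := by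
    intro k i
    have h2 := hB k i
    have e : ∑ j, (if j ∈ S i then (1 : ℝ) else 0) * y k j = ∑ j ∈ S i, y k j := by
      simp only [ite_mul, one_mul, zero_mul]
      rw [← Finset.sum_filter]
      congr 1
      ext j
      simp
    rw [e] at h2
    exact h2
  obtain ⟨χ, c1, c2, c3⟩ := full_of_frac S t hdeg _ ε K w y hw hy hB' hε
  exact ⟨K, w, χ, ⟨hw, hw1, c1⟩, c2, c3⟩

/-- `(1 + log t)^3 ≤ 27 t` -/
theorem log_cube (t : ℝ) (ht : 1 ≤ t) : (1 + Real.log t) ^ 3 ≤ 27 * t := by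
  have ht0 : 0 < t := by linarith
  set c : ℝ := t ^ (1 / 3 : ℝ) with hc
  have hc0 : 0 < c := Real.rpow_pos_of_pos ht0 _
  have hc3 : c ^ 3 = t := by
    rw [hc, ← Real.rpow_natCast, ← Real.rpow_mul ht0.le]
    norm_num
  have hlog : Real.log t = 3 * Real.log c := by
    rw [← hc3, Real.log_pow]; norm_num
  have h1 : Real.log c ≤ c - 1 := Real.log_le_sub_one_of_pos hc0
  have h2 : 0 ≤ Real.log t := Real.log_nonneg ht
  have h3 : 1 + Real.log t ≤ 3 * c := by rw [hlog]; linarith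
  calc (1 + Real.log t) ^ 3 ≤ (3 * c) ^ 3 := pow_le_pow_left₀ (by linarith) h3 3
    _ = 27 * c ^ 3 := by ring
    _ = 27 * t := by rw [hc3]

theorem bound_le (t : ℝ) (ht : 1 ≤ t) :
    bound t (Real.exp (-(2 * (t / (1 + Real.log t) ^ 3)) - 1)) ≤ 10000000 * Real.sqrt t := by
  have ht0 : 0 < t := by linarith
  have hl : 0 ≤ Real.log t := Real.log_nonneg ht
  set l : ℝ := 1 + Real.log t with hld
  have hl0 : 0 < l := by linarith
  refine (min_le_right _ _).trans ?_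
  have h1 : Real.log (1 / Real.exp (-(2 * (t / l ^ 3)) - 1)) = 2 * (t / l ^ 3) + 1 := by
    rw [one_div, Real.log_inv, Real.log_exp]; ring
  rw [h1]
  have h2 : l ^ (3 / 2 : ℝ) = Real.sqrt (l ^ 3) := by
    rw [Real.sqrt_eq_rpow, ← Real.rpow_natCast, ← Real.rpow_mul hl0.le]
    norm_num
  rw [h2, mul_assoc, ← Real.sqrt_mul (by positivity)]
  have h3 : (2 * (t / l ^ 3) + 1) * l ^ 3 = 2 * t + l ^ 3 := by
    field_simp
  rw [h3]
  have h4 : Real.sqrt (2 * t + l ^ 3) ≤ 6 * Real.sqrt t := by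
    rw [Real.sqrt_le_left (by positivity), mul_pow, Real.sq_sqrt ht0.le]
    have := log_cube t ht
    linarith
  have h5 : 0 ≤ Real.sqrt t := Real.sqrt_nonneg _
  linarith

theorem result :
    (∀ (m n t : ℕ) (S : Fin m → Finset (Fin n)), 1 ≤ t →
      (∀ j, (univ.filter (fun i => j ∈ S i)).card ≤ t) → ∀ ε : ℝ, 0 < ε → ε ≤ 1 / 2 →
      ∃ (K : ℕ) (w : Fin K → ℝ) (χ : Fin K → Fin n → ℝ), IsDist w χ ∧
        (∀ k i, |∑ j ∈ S i, χ k j| ≤ 2 * t + bound t ε) ∧
        ∀ i, ∑ k ∈ univ.filter (fun k => bound t ε < |∑ j ∈ S i, χ k j|), w k ≤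
          ε * (S i).card) ∧
    (∃ C : ℝ, ∀ (m n t s : ℕ) (S : Fin m → Finset (Fin n)), 1 ≤ t → 1 ≤ s →
      (∀ j, (univ.filter (fun i => j ∈ S i)).card ≤ t) → (∀ i, (S i).card ≤ s) →
      ∀ (r : ℕ) (ε B : ℝ), 0 < ε → ε ≤ 1 / 2 →
      B = C * (r + 1) * (Real.sqrt t + (1 + Real.log t) ^ 2 * Real.sqrt (Real.log s)) +
        C * (Real.sqrt t + (1 + Real.log t) ^ (3 / 2 : ℝ) *
          Real.sqrt ((fun x : ℝ => Real.log (1 + x))^[r + 1] (Real.log (1 / ε)))) →
      ∃ (K : ℕ) (w : Fin K → ℝ) (χ : Fin K → Fin n → ℝ), IsDist w χ ∧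
        (∀ k i, |∑ j ∈ S i, χ k j| ≤ 2 * t + B) ∧
        ∀ i, ∑ k ∈ univ.filter (fun k => B < |∑ j ∈ S i, χ k j|), w k ≤ ε * (S i).card) ∧
    (∃ C : ℝ, ∀ (m n t : ℕ) (S : Fin m → Finset (Fin n)), 1 ≤ t →
      (∀ j, (univ.filter (fun i => j ∈ S i)).card ≤ t) → ∀ p : Fin m → ℝ, (∀ i, 0 ≤ p i) →
      ∃ χ : Fin n → ℝ, (∀ j, χ j = 1 ∨ χ j = -1) ∧
        (∀ i, |∑ j ∈ S i, χ j| ≤ 2 * t + C * Real.sqrt t) ∧
        ∑ i ∈ univ.filter (fun i => C * Real.sqrt t < |∑ j ∈ S i, χ j|), p i ≤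
          Real.exp (-(2 * (t / (1 + Real.log t) ^ 3))) * ∑ i, p i * (S i).card) := by
  classical
  refine ⟨fun m n t S ht hdeg ε h0 h1 => dist1 m n t S ht hdeg ε h0 h1, ?_, ?_⟩
  · obtain ⟨C, hC⟩ := BeckFialaIterFree.result
    refine ⟨C, fun m n t s S ht hs hdeg hsize r ε B h0 h1 hBd => ?_⟩
    obtain ⟨-, hd⟩ := hC m n t s ht hs S hdeg hsize r (fun _ => 0) (fun _ => by simp)
    obtain ⟨K, w, y, hw, hw1, hy, hB, hε⟩ := hd ε h0 h1
    have hB' : ∀ k i, |∑ j ∈ S i, y k j| ≤ B := by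
      intro k i
      have h2 := hB k i
      simp only [sub_zero] at h2
      rw [hBd]
      exact h2
    obtain ⟨χ, c1, c2, c3⟩ := full_of_frac S t hdeg B ε K w y hw hy hB' hε
    exact ⟨K, w, χ, ⟨hw, hw1, c1⟩, c2, c3⟩
  · refine ⟨10000000, fun m n t S ht hdeg p hp => ?_⟩
    have htR : (1 : ℝ) ≤ t := by exact_mod_cast ht
    have ht0 : (0 : ℝ) < t := by linarith
    have hl : 0 ≤ Real.log (t : ℝ) := Real.log_nonneg htR
    set ε : ℝ := Real.exp (-(2 * ((t : ℝ) / (1 + Real.log t) ^ 3)) - 1) with hε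
    have hL : 0 ≤ (t : ℝ) / (1 + Real.log t) ^ 3 := by positivity
    have he1 : ε ≤ 1 / 2 := by
      have h1 : ε ≤ Real.exp (-1) := by
        rw [hε]
        apply Real.exp_le_exp.2
        linarith
      have h2 : Real.exp (-1) ≤ 1 / 2 := by
        rw [Real.exp_neg, one_div]
        apply inv_anti₀ (by norm_num)
        have := Real.add_one_le_exp (1 : ℝ)
        linarith
      exact h1.trans h2
    have he2 : ε ≤ Real.exp (-(2 * ((t : ℝ) / (1 + Real.log t) ^ 3))) := by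
      rw [hε]
      apply Real.exp_le_exp.2
      linarith
    obtain ⟨K, w, χ, ⟨hw, hw1, hχ⟩, hall, hprob⟩ := dist1 m n t S ht hdeg ε (Real.exp_pos _) he1
    obtain ⟨k, hk⟩ := one_of_dist S (bound t ε) ε K w χ hw hw1 hprob p hp
    have hb : bound t ε ≤ 10000000 * Real.sqrt t := bound_le t htR
    refine ⟨χ k, hχ k, fun i => (hall k i).trans (by linarith), ?_⟩
    have hsum : 0 ≤ ∑ i, p i * ((S i).card : ℝ) :=
      sum_nonneg fun i _ => mul_nonneg (hp i) (by positivity)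
    calc ∑ i ∈ univ.filter (fun i => 10000000 * Real.sqrt t < |∑ j ∈ S i, χ k j|), p i
        ≤ ∑ i ∈ univ.filter (fun i => bound t ε < |∑ j ∈ S i, χ k j|), p i := by
          apply Finset.sum_le_sum_of_subset_of_nonneg
          · intro i hi
            rw [mem_filter] at hi ⊢
            exact ⟨hi.1, lt_of_le_of_lt hb hi.2⟩
          · intro i _ _
            exact hp i
      _ ≤ ε * ∑ i, p i * (S i).card := hk
      _ ≤ _ := mul_le_mul_of_nonneg_right he2 hsum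

end Pool.Agent.Results.MP_e8ee11_co.AlmostAllSets
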