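import Pool.Agent.TH360.BF.Main

/-!
# The Beck–Fiala problem for set systems with an abelian group of symmetries

Let `H` be a finite abelian group of exponent dividing `e` which acts freely on the points and
freely on the sets of a set system of maximum degree at most `t`, and let `r` be the number of
orbits of points; the order of `H` is arbitrary.

(1) The discrepancy is at most the largest discrepancy of the set systems (without symmetries) of
maximum degree at most `t` on at most `r e ^ k` points, `k = ⌊log₂ (r t²)⌋ + 1`.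

(2) So it is at most `C √(1 + log e) (√t + (1 + log t) ^ (3 / 2) √(log r))`.

By (2) the Beck–Fiala bound `O_e (√t)` holds for all such systems with `log r ≤ t / (1 + log t) ^ 3`
orbits, whatever the number of points is. Known (Bansal and Jiang): systems with at most
`exp (t / (1 + log t) ^ 3)` points.

Proof. At most `r t ^ 2` elements `h ≠ 1` of `H` move some set containing a point `x` to another set
containing `x`. A random character separates half of any set of such elements from `1`, so there is
a subgroup of index at most `e ^ k` which contains none of them. Its orbits are met by every set in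
at most one point, and the system on the orbits has maximum degree at most `t`.
-/

set_option autoImplicit false

namespace Pool.Agent.Results.MP_e8ee11_co.BoundedExponentOrbits

open MulAction

/-- `H` is an abelian group, `a ^ e = 1` for all its elements; it acts freely on the set `M` of
indices of the sets and freely on the set `V` of points, and the system `S : M → Finset V` is
invariant. -/
def AbelianSymmetry (e : ℕ) (H M V : Type) [CommGroup H] [MulAction H M] [MulAction H V]
    (S : M → Finset V) : Prop :=
  (∀ a : H, a ^ e = 1) ∧ (∀ (a : H) (i : M), a • i = i → a = 1) ∧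
    (∀ (a : H) (x : V), a • x = x → a = 1) ∧ ∀ (a : H) (i : M) (x : V), a • x ∈ S (a • i) ↔ x ∈ S i

/-- number of orbits of `H` on the set `V` of points -/
noncomputable def orbits (H V : Type) [Group H] [MulAction H V] : ℕ :=
  Nat.card (orbitRel.Quotient H V)

theorem result :
    (∀ (e : ℕ) (H M V : Type) [CommGroup H] [Finite H] [Fintype M] [Fintype V] [MulAction H M]
      [MulAction H V] (S : M → Finset V) (t : ℕ) (B : ℝ), 1 ≤ e → AbelianSymmetry e H M V S →
      (∀ x : V, Nat.card {i : M // x ∈ S i} ≤ t) →
      (∀ (m n : ℕ) (S' : Fin m → Finset (Fin n)),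
        n ≤ orbits H V * e ^ (Nat.log 2 (orbits H V * t ^ 2) + 1) →
        (∀ x, (Finset.univ.filter fun i => x ∈ S' i).card ≤ t) →
        ∃ χ : Fin n → ℤ, (∀ x, χ x = 1 ∨ χ x = -1) ∧ ∀ i, ((|∑ x ∈ S' i, χ x| : ℤ) : ℝ) ≤ B) →
      ∃ χ : V → ℤ, (∀ x, χ x = 1 ∨ χ x = -1) ∧ ∀ i, ((|∑ x ∈ S i, χ x| : ℤ) : ℝ) ≤ B) ∧
    ∃ C : ℝ, ∀ (e : ℕ) (H M V : Type) [CommGroup H] [Finite H] [Fintype M] [Fintype V]
      [MulAction H M] [MulAction H V] (S : M → Finset V) (t : ℕ), 1 ≤ e → 1 ≤ t →
      AbelianSymmetry e H M V S → (∀ x : V, Nat.card {i : M // x ∈ S i} ≤ t) →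
      ∃ χ : V → ℤ, (∀ x, χ x = 1 ∨ χ x = -1) ∧ ∀ i, ((|∑ x ∈ S i, χ x| : ℤ) : ℝ) ≤
        C * Real.sqrt (1 + Real.log e) *
          (Real.sqrt t + (1 + Real.log t) ^ (3 / 2 : ℝ) * Real.sqrt (Real.log (orbits H V))) := by
  constructor
  · intro e H M V _ _ _ _ _ _ S t B he hs hdeg hB
    let _ : Fintype H := Fintype.ofFinite H
    exact Pool.Agent.TH360.BF.reduce e he hs.1 S hs.2.1 hs.2.2.1 hs.2.2.2 t hdeg B
      (fun m n S' hn hd => hB m n S' hn hd)
  · obtain ⟨C, hC⟩ := Pool.Agent.TH360.BF.explicit
    refine ⟨C, ?_⟩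
    intro e H M V _ _ _ _ _ _ S t he ht hs hdeg
    exact hC e H M V S t he ht hs.1 hs.2.1 hs.2.2.1 hs.2.2.2 hdeg

end Pool.Agent.Results.MP_e8ee11_co.BoundedExponentOrbits
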