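import Mathlib
import Pool.Agent.Results.MP_e8ee11_co.BeckFialaIterFree
import Pool.Agent.TH104.BF.Q
import Pool.Agent.TH104.BF.Num

/-!
# The Beck–Fiala problem for set systems with a group of symmetries which has small quotients
-/

namespace Pool.Agent.Results.MP_e8ee11_co.ResiduallySmallSymmetry

open MulAction

/-- The group `H` acts on the set `M` of indices of the sets, freely, and on the set `V` of points;
the system `S : M → Finset V` is invariant; and every element `a ≠ 1` of `H` for which some set `S i`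
and its translate `S (a • i)` have a common point lies outside some normal subgroup of `H` of index
at most `e`. -/
def ResiduallySmall (e : ℕ) (H M V : Type) [Group H] [MulAction H M] [MulAction H V]
    (S : M → Finset V) : Prop :=
  (∀ (a : H) (i : M), a • i = i → a = 1) ∧
    (∀ (a : H) (i : M) (x : V), a • x ∈ S (a • i) ↔ x ∈ S i) ∧
    ∀ a : H, a ≠ 1 → (∃ (i : M) (x : V), x ∈ S i ∧ x ∈ S (a • i)) →
      ∃ N : Subgroup H, N.Normal ∧ N.index ≤ e ∧ a ∉ N

/-- number of orbits of `H` on the set `V` of points -/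
noncomputable def orbits (H V : Type) [Group H] [MulAction H V] : ℕ :=
  Nat.card (orbitRel.Quotient H V)

theorem result :
    (∀ (e : ℕ) (H M V : Type) [Group H] [Finite H] [Fintype M] [Fintype V] [MulAction H M]
      [MulAction H V] (S : M → Finset V) (t : ℕ) (B : ℝ), 1 ≤ e → ResiduallySmall e H M V S →
      (∀ x : V, Nat.card {i : M // x ∈ S i} ≤ t) →
      (∀ (m n : ℕ) (S' : Fin m → Finset (Fin n)),
        n ≤ orbits H V * e ^ (orbits H V * t ^ 2) →
        (∀ x, (Finset.univ.filter fun i => x ∈ S' i).card ≤ t) →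
        (∀ i, (S' i).card ≤ orbits H V * t) →
        ∃ χ : Fin n → ℤ, (∀ x, χ x = 1 ∨ χ x = -1) ∧ ∀ i, ((|∑ x ∈ S' i, χ x| : ℤ) : ℝ) ≤ B) →
      ∃ χ : V → ℤ, (∀ x, χ x = 1 ∨ χ x = -1) ∧ ∀ i, ((|∑ x ∈ S i, χ x| : ℤ) : ℝ) ≤ B) ∧
    ∃ C : ℝ, ∀ (e : ℕ) (H M V : Type) [Group H] [Finite H] [Fintype M] [Fintype V]
      [MulAction H M] [MulAction H V] (S : M → Finset V) (t : ℕ), 1 ≤ e → 1 ≤ t →
      ResiduallySmall e H M V S → (∀ x : V, Nat.card {i : M // x ∈ S i} ≤ t) →
      ∀ k : ℕ, 1 ≤ k →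
      ∃ χ : V → ℤ, (∀ x, χ x = 1 ∨ χ x = -1) ∧ ∀ i, ((|∑ x ∈ S i, χ x| : ℤ) : ℝ) ≤
        C * (k * (Real.sqrt t + (1 + Real.log t) ^ 2 * Real.sqrt (Real.log (orbits H V))) +
          (1 + Real.log t) ^ (3 / 2 : ℝ) *
            Real.sqrt ((fun x : ℝ => Real.log (1 + x))^[k] (Real.log e))) := by
  classical
  have key : ∀ (e : ℕ) (H M V : Type) [Group H] [Finite H] [Fintype M] [Fintype V] [MulAction H M]
      [MulAction H V] (S : M → Finset V) (t : ℕ) (B : ℝ), 1 ≤ e → ResiduallySmall e H M V S →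
      (∀ x : V, Nat.card {i : M // x ∈ S i} ≤ t) →
      Pool.Agent.TH104.BF.GoodSys t (orbits H V * t) (orbits H V * e ^ (orbits H V * t ^ 2)) B →
      ∃ χ : V → ℤ, (∀ x, χ x = 1 ∨ χ x = -1) ∧ ∀ i, ((|∑ x ∈ S i, χ x| : ℤ) : ℝ) ≤ B := by
    intro e H M V _ _ _ _ _ _ S t B he hs hdeg hB
    let _ : Fintype H := Fintype.ofFinite H
    obtain ⟨N, hN1, hN2⟩ := Pool.Agent.TH104.BF.exists_normal e he S hs.2.2 hs.1 hs.2.1 t hdeg
    refine Pool.Agent.TH104.BF.quot S hs.2.1 N hN2 t (orbits H V * t) hdeg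
      (fun i => Pool.Agent.TH104.BF.size_le S hs.1 hs.2.1 t hdeg i) B ?_
    intro m n S' hn hd hsz
    exact hB m n S' (hn.trans ((Pool.Agent.TH104.BF.card_quot N).trans
      (Nat.mul_le_mul_left _ hN1))) hd hsz
  constructor
  · intro e H M V _ _ _ _ _ _ S t B he hs hdeg hB
    exact key e H M V S t B he hs hdeg (fun m n S' hn hd hsz => hB m n S' hn hd hsz)
  · obtain ⟨C, hC⟩ := Pool.Agent.Results.MP_e8ee11_co.BeckFialaIterFree.result
    refine ⟨1000 * |C|, ?_⟩
    intro e H M V _ _ _ _ _ _ S t he ht hs hdeg k hk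
    rcases Nat.eq_zero_or_pos (orbits H V) with h0 | h0
    · have hV : IsEmpty V := by
        by_contra hne
        rw [not_isEmpty_iff] at hne
        obtain ⟨x⟩ := hne
        have : Nonempty (orbitRel.Quotient H V) := ⟨Quotient.mk _ x⟩
        have h1 : 0 < Nat.card (orbitRel.Quotient H V) := Nat.card_pos
        unfold orbits at h0
        omega
      refine ⟨fun _ => 1, fun _ => Or.inl rfl, fun i => ?_⟩
      have h1 : S i = ∅ := Finset.eq_empty_of_isEmpty _
      rw [h1]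
      simp only [Finset.sum_empty, abs_zero, Int.cast_zero]
      have htR : (1 : ℝ) ≤ t := by exact_mod_cast ht
      have hlt : 0 ≤ Real.log (t : ℝ) := Real.log_nonneg htR
      have hp0 : 0 ≤ (1 + Real.log (t : ℝ)) ^ (3 / 2 : ℝ) := Real.rpow_nonneg (by linarith) _
      positivity
    · refine key e H M V S t _ he hs hdeg ?_
      intro m n S' hn hd hsz
      obtain ⟨⟨χ, h1, h2⟩, -⟩ := hC m n t (orbits H V * t) ht (Nat.mul_pos h0 ht) S' hd hsz k
        (fun _ => 0) (by simp)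
      refine ⟨χ, h1, fun i => ?_⟩
      have h3 := h2 i
      simp only [sub_zero] at h3
      have h4 : ((|∑ x ∈ S' i, χ x| : ℤ) : ℝ) = |∑ x ∈ S' i, (χ x : ℝ)| := by push_cast; rfl
      rw [h4]
      refine h3.trans ?_
      exact Pool.Agent.TH104.BF.final C (orbits H V) t e k h0 ht he hk ((min m n : ℕ) : ℝ)
        (Nat.cast_nonneg _) (by
          exact_mod_cast (Nat.min_le_right m n).trans hn)

end Pool.Agent.Results.MP_e8ee11_co.ResiduallySmallSymmetry
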