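import Mathlib
import Pool.Agent.TH288.BF.Budget

/-!
# Beck-Fiala with a separate bound for every set

Each element splits a budget `1` among the sets that contain it.
-/

namespace Pool.Agent.Results.MP_e8ee11_co.SharedBudgets

open Finset H294BF Pool.Agent.H663R5.BF Pool.Agent.TH288.BF

theorem result :
    (∀ (m n : ℕ) (A : Fin m → Fin n → ℤ) (T : Fin m → ℕ) (u : Fin m → Fin n → ℝ),
      (∀ j i, |A j i| ≤ 1) → (∀ j i, 0 ≤ u j i) →
      (∀ i, ∑ j ∈ univ.filter (fun j => A j i ≠ 0), u j i ≤ 1) →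
      (∀ j, (∀ X : Finset (Fin n), (∀ i ∈ X, A j i ≠ 0) → T j < X.card → 1 < ∑ i ∈ X, u j i) ∨
        ((∀ i, A j i ≠ 0 → 1 / ((T j : ℝ) + 1) ≤ u j i) ∧
          (8 ≤ T j ∨ ∀ i, A j i ≠ 0 → ∑ k ∈ univ.filter (fun k => A k i ≠ 0), u k i < 1))) →
      ∃ χ : Fin n → ℤ, (∀ i, χ i = 1 ∨ χ i = -1) ∧ ∀ j, |∑ i, A j i * χ i| ≤ (T j : ℤ)) ∧
    (∀ (m n : ℕ) (S : Fin m → Finset (Fin n)) (T : Fin m → ℕ),
      (∀ i, ∑ j ∈ univ.filter (fun j => i ∈ S j), 1 / ((T j : ℝ) + 1) < 1 ∨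
        (∑ j ∈ univ.filter (fun j => i ∈ S j), 1 / ((T j : ℝ) + 1) = 1 ∧
          ∀ j, i ∈ S j → 8 ≤ T j)) →
      ∃ χ : Fin n → ℤ, (∀ i, χ i = 1 ∨ χ i = -1) ∧ ∀ j, |∑ i ∈ S j, χ i| ≤ (T j : ℤ)) ∧
    (∀ (m n : ℕ) (S : Fin m → Finset (Fin n)),
      ∃ χ : Fin n → ℤ, (∀ i, χ i = 1 ∨ χ i = -1) ∧ ∀ (j : Fin m) (T : ℕ),
        ((∀ X : Finset (Fin n), X ⊆ S j → T < X.card →
            (1 : ℝ) < ∑ i ∈ X, 1 / ((univ.filter (fun k => i ∈ S k)).card : ℝ)) ∨
          (8 ≤ T ∧ ∀ i ∈ S j, (univ.filter (fun k => i ∈ S k)).card ≤ T + 1)) →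
        |∑ i ∈ S j, χ i| ≤ (T : ℤ)) ∧
    (∀ (m n t k : ℕ) (S : Fin m → Finset (Fin n)), 1 ≤ t → 1 ≤ k →
      (∀ j, ((S j).filter (fun i => t < (univ.filter (fun l => i ∈ S l)).card)).card ≤ k) →
      ∃ χ : Fin n → ℤ, (∀ i, χ i = 1 ∨ χ i = -1) ∧
        ∀ j, |∑ i ∈ S j, χ i| ≤ (t : ℤ) + k - 1) := by
  classical
  have hsz : ∀ b : Bool, sz b = 1 ∨ sz b = -1 := fun b => by cases b <;> simp [sz]
  -- (1)
  have part1 : ∀ (m n : ℕ) (A : Fin m → Fin n → ℤ) (T : Fin m → ℕ) (u : Fin m → Fin n → ℝ),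
      (∀ j i, |A j i| ≤ 1) → (∀ j i, 0 ≤ u j i) →
      (∀ i, ∑ j ∈ univ.filter (fun j => A j i ≠ 0), u j i ≤ 1) →
      (∀ j, (∀ X : Finset (Fin n), (∀ i ∈ X, A j i ≠ 0) → T j < X.card → 1 < ∑ i ∈ X, u j i) ∨
        ((∀ i, A j i ≠ 0 → 1 / ((T j : ℝ) + 1) ≤ u j i) ∧
          (8 ≤ T j ∨ ∀ i, A j i ≠ 0 → ∑ k ∈ univ.filter (fun k => A k i ≠ 0), u k i < 1))) →
      ∃ χ : Fin n → ℤ, (∀ i, χ i = 1 ∨ χ i = -1) ∧ ∀ j, |∑ i, A j i * χ i| ≤ (T j : ℤ) := by
    intro m n A T u hA hu0 hu hT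
    obtain ⟨x, hx⟩ := budget A hA T u hu0 hu hT
    exact ⟨fun i => sz (x i), fun i => hsz _, hx⟩
  -- the same for sets
  have hne : ∀ {m n : ℕ} (S : Fin m → Finset (Fin n)) (j : Fin m) (i : Fin n),
      (if i ∈ S j then (1 : ℤ) else 0) ≠ 0 ↔ i ∈ S j := by
    intro m n S j i
    split_ifs with h <;> simp [h]
  have hfil : ∀ {m n : ℕ} (S : Fin m → Finset (Fin n)) (i : Fin n),
      (univ.filter (fun l : Fin m => (if i ∈ S l then (1 : ℤ) else 0) ≠ 0)) =
        univ.filter (fun l => i ∈ S l) := by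
    intro m n S i
    ext l
    simp only [mem_filter, mem_univ, true_and]
    exact hne S l i
  have hsum : ∀ {m n : ℕ} (S : Fin m → Finset (Fin n)) (χ : Fin n → ℤ) (j : Fin m),
      ∑ i, (if i ∈ S j then (1 : ℤ) else 0) * χ i = ∑ i ∈ S j, χ i := by
    intro m n S χ j
    simp only [ite_mul, one_mul, zero_mul]
    rw [← Finset.sum_filter]
    congr 1
    ext i
    simp
  have sets : ∀ (m n : ℕ) (S : Fin m → Finset (Fin n)) (T : Fin m → ℕ) (u : Fin m → Fin n → ℝ),
      (∀ j i, 0 ≤ u j i) →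
      (∀ i, ∑ j ∈ univ.filter (fun j => i ∈ S j), u j i ≤ 1) →
      (∀ j, (∀ X : Finset (Fin n), X ⊆ S j → T j < X.card → 1 < ∑ i ∈ X, u j i) ∨
        ((∀ i ∈ S j, 1 / ((T j : ℝ) + 1) ≤ u j i) ∧
          (8 ≤ T j ∨ ∀ i ∈ S j, ∑ k ∈ univ.filter (fun k => i ∈ S k), u k i < 1))) →
      ∃ χ : Fin n → ℤ, (∀ i, χ i = 1 ∨ χ i = -1) ∧ ∀ j, |∑ i ∈ S j, χ i| ≤ (T j : ℤ) := by
    intro m n S T u hu0 hu hT
    obtain ⟨χ, h1, h2⟩ := part1 m n (fun j i => if i ∈ S j then 1 else 0) T u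
      (by intro j i; split_ifs <;> simp) hu0
      (by intro i; simp only [hfil]; exact hu i)
      (by
        intro j
        rcases hT j with h | ⟨h, h'⟩
        · exact Or.inl fun X hX hc => h X (fun i hi => (hne S j i).1 (hX i hi)) hc
        · refine Or.inr ⟨fun i hi => h i ((hne S j i).1 hi), ?_⟩
          rcases h' with h8 | h'
          · exact Or.inl h8
          · refine Or.inr fun i hi => ?_
            simp only [hfil]
            exact h' i ((hne S j i).1 hi))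
    refine ⟨χ, h1, fun j => ?_⟩
    have h3 := h2 j
    rwa [hsum S χ j] at h3
  -- (3)
  have part3 : ∀ (m n : ℕ) (S : Fin m → Finset (Fin n)),
      ∃ χ : Fin n → ℤ, (∀ i, χ i = 1 ∨ χ i = -1) ∧ ∀ (j : Fin m) (T : ℕ),
        ((∀ X : Finset (Fin n), X ⊆ S j → T < X.card →
            (1 : ℝ) < ∑ i ∈ X, 1 / ((univ.filter (fun k => i ∈ S k)).card : ℝ)) ∨
          (8 ≤ T ∧ ∀ i ∈ S j, (univ.filter (fun k => i ∈ S k)).card ≤ T + 1)) →
        |∑ i ∈ S j, χ i| ≤ (T : ℤ) := by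
    intro m n S
    let p : Fin m → ℕ → Prop := fun j T =>
      (∀ X : Finset (Fin n), X ⊆ S j → T < X.card →
          (1 : ℝ) < ∑ i ∈ X, 1 / ((univ.filter (fun k => i ∈ S k)).card : ℝ)) ∨
        (8 ≤ T ∧ ∀ i ∈ S j, (univ.filter (fun k => i ∈ S k)).card ≤ T + 1)
    have hp : ∀ j, ∃ T, p j T := by
      intro j
      refine ⟨n, Or.inl fun X _ h => ?_⟩
      have h1 : X.card ≤ n := by
        have := Finset.card_le_univ X
        simpa using this
      omega
    obtain ⟨χ, h1, h2⟩ := sets m n S (fun j => Nat.find (hp j))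
      (fun _ i => 1 / ((univ.filter (fun k => i ∈ S k)).card : ℝ))
      (fun _ i => by positivity)
      (by
        intro i
        rw [sum_const, nsmul_eq_mul, mul_one_div]
        exact div_self_le_one _)
      (by
        intro j
        rcases Nat.find_spec (hp j) with h | ⟨h8, h⟩
        · exact Or.inl h
        · refine Or.inr ⟨fun i hi => ?_, Or.inl h8⟩
          have hpos : 0 < (univ.filter (fun k => i ∈ S k)).card :=
            card_pos.2 ⟨j, mem_filter.2 ⟨mem_univ _, hi⟩⟩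
          apply one_div_le_one_div_of_le
          · exact_mod_cast hpos
          · exact_mod_cast h i hi)
    refine ⟨χ, h1, fun j T hT => ?_⟩
    have h3 : Nat.find (hp j) ≤ T := Nat.find_min' (hp j) hT
    have h4 : ((Nat.find (hp j) : ℕ) : ℤ) ≤ T := by exact_mod_cast h3
    exact (h2 j).trans h4
  refine ⟨part1, ?_, part3, ?_⟩
  · intro m n S T hT
    refine sets m n S T (fun j _ => 1 / ((T j : ℝ) + 1)) (fun j i => by positivity) ?_ ?_
    · intro i
      rcases hT i with h | ⟨h, -⟩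
      · exact h.le
      · exact h.le
    · intro j
      refine Or.inr ⟨fun i _ => le_rfl, ?_⟩
      by_cases h8 : 8 ≤ T j
      · exact Or.inl h8
      · refine Or.inr fun i hi => ?_
        rcases hT i with h | ⟨-, h⟩
        · exact h
        · exact absurd (h j hi) h8
  · intro m n t k S ht hk hS
    obtain ⟨χ, h1, h2⟩ := part3 m n S
    refine ⟨χ, h1, fun j => ?_⟩
    have h3 := h2 j (t + k - 1) (Or.inl (by
      intro X hX' hcard
      set d : Fin n → ℕ := fun i => (univ.filter (fun l => i ∈ S l)).card with hdd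
      have hdpos : ∀ i ∈ X, 0 < d i := fun i hi =>
        card_pos.2 ⟨j, mem_filter.2 ⟨mem_univ _, hX' hi⟩⟩
      have hsplit : ∑ i ∈ X, 1 / (d i : ℝ) = ∑ i ∈ X.filter (fun i => t < d i), 1 / (d i : ℝ) +
          ∑ i ∈ X.filter (fun i => ¬ t < d i), 1 / (d i : ℝ) :=
        (Finset.sum_filter_add_sum_filter_not X _ _).symm
      have hcs : (X.filter (fun i => t < d i)).card + (X.filter (fun i => ¬ t < d i)).card
          = X.card := Finset.card_filter_add_card_filter_not _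
      have hk2 : (X.filter (fun i => t < d i)).card ≤ k :=
        (card_le_card (filter_subset_filter _ hX')).trans (hS j)
      have htr : (0 : ℝ) < t := by exact_mod_cast ht
      have hlow : ((X.filter (fun i => ¬ t < d i)).card : ℝ) / t ≤
          ∑ i ∈ X.filter (fun i => ¬ t < d i), 1 / (d i : ℝ) := by
        calc ((X.filter (fun i => ¬ t < d i)).card : ℝ) / t =
            ∑ i ∈ X.filter (fun i => ¬ t < d i), 1 / (t : ℝ) := by
              rw [sum_const, nsmul_eq_mul, mul_one_div]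
          _ ≤ _ := by
              refine sum_le_sum fun i hi => ?_
              rw [mem_filter] at hi
              apply one_div_le_one_div_of_le
              · exact_mod_cast hdpos i hi.1
              · exact_mod_cast not_lt.1 hi.2
      rcases Nat.eq_zero_or_pos (X.filter (fun i => t < d i)).card with h0 | h0
      · have h4 : t + 1 ≤ (X.filter (fun i => ¬ t < d i)).card := by omega
        have h5 : (1 : ℝ) < ((X.filter (fun i => ¬ t < d i)).card : ℝ) / t := by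
          rw [one_lt_div htr]
          exact_mod_cast h4
        have h6 : 0 ≤ ∑ i ∈ X.filter (fun i => t < d i), 1 / (d i : ℝ) :=
          sum_nonneg fun i _ => by positivity
        linarith
      · have h4 : t ≤ (X.filter (fun i => ¬ t < d i)).card := by omega
        have h5 : (1 : ℝ) ≤ ((X.filter (fun i => ¬ t < d i)).card : ℝ) / t := by
          rw [one_le_div htr]
          exact_mod_cast h4
        have h6 : 0 < ∑ i ∈ X.filter (fun i => t < d i), 1 / (d i : ℝ) := by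
          apply sum_pos
          · intro i hi
            have := hdpos i (mem_filter.1 hi).1
            positivity
          · exact card_pos.1 h0
        linarith))
    have h5 : (((t + k - 1 : ℕ)) : ℤ) = (t : ℤ) + k - 1 := by omega
    rw [h5] at h3
    exact h3

end Pool.Agent.Results.MP_e8ee11_co.SharedBudgets
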